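import Pool.Agent.Lib.H81.St.Final5

/-!
MP_37896c_gt: perimeter along iterated Steiner symmetrizations, disproof in every dimension
`n ≥ 3`. The definitions `dvg`, `perimeter`, `steiner`, `iter` are in
`Pool/Agent/Lib/H81/St/Defs.lean`.
-/

open MeasureTheory Set Metric Filter Topology

namespace Pool.Agent.Results.MP_37896c_gt.PerimeterGap

open Pool.Agent.H81St

/-- In every dimension `n ≥ 3` there are a compact set `E` of finite perimeter with nonempty
interior and unit vectors `u 0, u 1, …` such that the iterated Steiner symmetrals of `E` converge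
in the Hausdorff distance to the centred closed ball of the same volume, while their perimeters do
not converge to the perimeter of that ball. -/
theorem result (n : ℕ) (hn : 3 ≤ n) :
    ∃ (E : Set (EuclideanSpace ℝ (Fin n))) (u : ℕ → EuclideanSpace ℝ (Fin n)) (ρ : ℝ),
      IsCompact E ∧ perimeter E < ⊤ ∧ (interior E).Nonempty ∧ (∀ i, ‖u i‖ = 1) ∧
      0 < ρ ∧ volume (closedBall (0 : EuclideanSpace ℝ (Fin n)) ρ) = volume E ∧
      (∀ i, IsCompact (iter u E i)) ∧
      Tendsto (fun i => hausdorffEDist (iter u E i) (closedBall 0 ρ)) atTop (𝓝 0) ∧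
      ¬ Tendsto (fun i => perimeter (iter u E i)) atTop
        (𝓝 (perimeter (closedBall (0 : EuclideanSpace ℝ (Fin n)) ρ))) :=
  final n hn

end Pool.Agent.Results.MP_37896c_gt.PerimeterGap
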