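import Pool.Agent.Lib.H89G.J6

/-!
MP_37896c_gt: perimeter along iterated Steiner symmetrizations in the plane, positive results. The
definitions `dvg`, `perimeter`, `steiner`, `iter` are in `Pool/Agent/Lib/H81/St/Defs.lean`.
-/

open MeasureTheory Set Metric Filter Topology

namespace Pool.Agent.Results.MP_37896c_gt.PlaneDirections

open Pool.Agent.H81St

/-- Let `E` be a compact set of finite perimeter in the plane and let its iterated Steiner
symmetrals `E_i` in the directions of angles `θ 0, θ 1, …` converge in the Hausdorff distance to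
the centred closed ball `B` of the same area.
If `∑ sin² (2 m (θ (j + 1) - θ j)) = ∞` for `1 ≤ m < k`, `k ≥ 2`, then
`limsup P(E_i) ≤ (2 k - 1) / (2 k - 2) · P(B)`; if this sum is infinite for all `m ≥ 1` then
`P(E_i)` converges to `P(B)`. -/
theorem result (E : Set (EuclideanSpace ℝ (Fin 2))) (θ : ℕ → ℝ) (ρ : ℝ) (hE : IsCompact E)
    (hP : perimeter E < ⊤) (hρ : 0 < ρ)
    (hv : volume (closedBall (0 : EuclideanSpace ℝ (Fin 2)) ρ) = volume E)
    (hH : Tendsto (fun i => hausdorffEDist (iter (fun j => !₂[Real.cos (θ j), Real.sin (θ j)]) E i)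
      (closedBall (0 : EuclideanSpace ℝ (Fin 2)) ρ)) atTop (𝓝 0)) :
    (∀ k : ℕ, 2 ≤ k →
      (∀ m : ℕ, 1 ≤ m → m < k → ¬ Summable fun j => Real.sin (2 * m * (θ (j + 1) - θ j)) ^ 2) →
      limsup (fun i => perimeter (iter (fun j => !₂[Real.cos (θ j), Real.sin (θ j)]) E i)) atTop ≤
        ENNReal.ofReal ((2 * k - 1) / (2 * k - 2)) *
          perimeter (closedBall (0 : EuclideanSpace ℝ (Fin 2)) ρ)) ∧
    ((∀ m : ℕ, 1 ≤ m → ¬ Summable fun j => Real.sin (2 * m * (θ (j + 1) - θ j)) ^ 2) →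
      Tendsto (fun i => perimeter (iter (fun j => !₂[Real.cos (θ j), Real.sin (θ j)]) E i)) atTop
        (𝓝 (perimeter (closedBall (0 : EuclideanSpace ℝ (Fin 2)) ρ)))) :=
  ⟨fun _ hk h => Pool.Agent.H89G.plane_bound hE hP.ne hρ hH hk h,
    fun h => Pool.Agent.H89G.plane_tendsto hE hP.ne hρ hv hH h⟩

end Pool.Agent.Results.MP_37896c_gt.PlaneDirections
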