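import Pool.Agent.Lib.H89G.K9

/-!
MP_37896c_gt: perimeter along iterated Steiner symmetrizations in random directions, every
dimension. The definitions `dvg`, `perimeter`, `steiner`, `iter` are in
`Pool/Agent/Lib/H81/St/Defs.lean`.
-/

open MeasureTheory Set Metric Filter Topology

namespace Pool.Agent.Results.MP_37896c_gt.RandomDirections

open Pool.Agent.H81St

/-- Let `n ≥ 1` and let `ν` be a probability measure on the unit sphere of `ℝⁿ` which charges
every ball centred on the sphere. For almost every sequence `ω` of independent directions of law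
`ν` the following holds for ALL compact sets `E` of finite perimeter at once: if the iterated
Steiner symmetrals of `E` in the directions `ω` converge in the Hausdorff distance to the centred
closed ball `B` of the same volume then their perimeters converge to the perimeter of `B`. -/
theorem result (n : ℕ) (hn : 1 ≤ n) (ν : Measure (EuclideanSpace ℝ (Fin n)))
    [IsProbabilityMeasure ν] (hν : ∀ᵐ x ∂ν, ‖x‖ = 1)
    (hfull : ∀ x : EuclideanSpace ℝ (Fin n), ‖x‖ = 1 → ∀ r > 0, 0 < ν (ball x r)) :
    ∀ᵐ ω ∂(Measure.infinitePi fun _ : ℕ => ν),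
      ∀ (E : Set (EuclideanSpace ℝ (Fin n))) (ρ : ℝ), IsCompact E → perimeter E < ⊤ → 0 < ρ →
        volume (closedBall (0 : EuclideanSpace ℝ (Fin n)) ρ) = volume E →
        Tendsto (fun i => hausdorffEDist (iter ω E i)
          (closedBall (0 : EuclideanSpace ℝ (Fin n)) ρ)) atTop (𝓝 0) →
        Tendsto (fun i => perimeter (iter ω E i)) atTop
          (𝓝 (perimeter (closedBall (0 : EuclideanSpace ℝ (Fin n)) ρ))) := by
  have he : ‖EuclideanSpace.single (⟨0, hn⟩ : Fin n) (1 : ℝ)‖ = 1 := by simp
  filter_upwards [Pool.Agent.H89G.ae_tendsto (ν := ν) ⟨inferInstance, hν, hfull⟩ he] with ω hω E ρ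
    hE hP hρ hv hH
  exact hω E ρ hE hP.ne hρ hv hH

end Pool.Agent.Results.MP_37896c_gt.RandomDirections
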